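import Mathlib
import Pool.Agent.K7.H27.MK.Chk

set_option autoImplicit false

/-!
# Packed kernel check of the rows of a certificate

A natural number is read as a sequence of 20-bit lanes; a whole row of relations is tested with a few
operations on numbers of `20 * L` bits.
-/

namespace Pool.Agent.V8H27.MK

open Finset
open Pool.Agent.K7.H27.MK

/-- lane `i` of `X` -/
def ln (X i : ℕ) : ℕ := Nat.mod (Nat.shiftRight X (Nat.mul 20 i)) 1048576

/-- the number with lanes `f 0, ..., f (m - 1)` -/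
def pk (f : ℕ → ℕ) (m : ℕ) : ℕ := ∑ j ∈ range m, f j * 2 ^ (20 * j)

theorem ln_eq (X i : ℕ) : ln X i = X / 2 ^ (20 * i) % 2 ^ 20 := by
  have h : ln X i = (X >>> (20 * i)) % 1048576 := rfl
  rw [h, Nat.shiftRight_eq_div_pow]
  norm_num

theorem ln_lt (X i : ℕ) : ln X i < 2 ^ 20 := by
  rw [ln_eq]; exact Nat.mod_lt _ (by norm_num)

theorem pk_succ (f : ℕ → ℕ) (m : ℕ) : pk f (m + 1) = pk f m + f m * 2 ^ (20 * m) := by
  rw [pk, sum_range_succ]; rfl

theorem mod_pk (X m : ℕ) : X % 2 ^ (20 * m) = pk (ln X) m := by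
  induction m with
  | zero => simp [pk, Nat.mod_one]
  | succ m ih =>
    have h : 2 ^ (20 * (m + 1)) = 2 ^ (20 * m) * 2 ^ 20 := by rw [← pow_add]; ring_nf
    rw [h, Nat.mod_mul, ih, pk_succ, ln_eq]
    ring

theorem pk_lt {f : ℕ → ℕ} {m : ℕ} (hf : ∀ j, j < m → f j < 2 ^ 20) : pk f m < 2 ^ (20 * m) := by
  induction m with
  | zero => simp [pk]
  | succ m ih =>
    have h : 2 ^ (20 * (m + 1)) = 2 ^ (20 * m) * 2 ^ 20 := by rw [← pow_add]; ring_nf
    have h1 := ih (fun j hj => hf j (by omega))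
    have h2 := hf m (by omega)
    rw [pk_succ, h]
    have h3 : f m * 2 ^ (20 * m) ≤ (2 ^ 20 - 1) * 2 ^ (20 * m) := Nat.mul_le_mul_right _ (by omega)
    have h4 : 2 ^ (20 * m) * 2 ^ 20 = (2 ^ 20 - 1) * 2 ^ (20 * m) + 2 ^ (20 * m) := by
      have : (2 : ℕ) ^ 20 = (2 ^ 20 - 1) + 1 := by norm_num
      nth_rw 1 [this]; ring
    omega

theorem ln_pk {f : ℕ → ℕ} {m : ℕ} (hf : ∀ j, j < m → f j < 2 ^ 20) {i : ℕ} (hi : i < m) :
    ln (pk f m) i = f i := by
  induction m with
  | zero => omega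
  | succ m ih =>
    rw [pk_succ, ln_eq]
    rcases Nat.lt_succ_iff_lt_or_eq.mp hi with h | h
    · obtain ⟨k, rfl⟩ : ∃ k, m = i + 1 + k := ⟨m - (i + 1), by omega⟩
      have e : f (i + 1 + k) * 2 ^ (20 * (i + 1 + k)) = 2 ^ (20 * i) * (2 ^ 20 * (f (i + 1 + k) * 2 ^ (20 * k))) := by
        have : 20 * (i + 1 + k) = 20 * i + (20 + 20 * k) := by ring
        rw [this, pow_add, pow_add]; ring
      rw [e, Nat.add_mul_div_left _ _ (by positivity), Nat.add_mul_mod_self_left, ← ln_eq]
      exact ih (fun j hj => hf j (by omega)) h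
    · subst h
      have h1 := pk_lt (fun j (hj : j < i) => hf j (by omega))
      rw [mul_comm (f i), Nat.add_mul_div_left _ _ (by positivity), Nat.div_eq_of_lt h1, zero_add,
        Nat.mod_eq_of_lt (hf i (by omega))]

theorem pk_add (f g : ℕ → ℕ) (m : ℕ) : pk f m + pk g m = pk (fun j => f j + g j) m := by
  simp only [pk, ← sum_add_distrib, add_mul]

theorem pk_mul (k : ℕ) (f : ℕ → ℕ) (m : ℕ) : k * pk f m = pk (fun j => k * f j) m := by
  simp only [pk, mul_sum, mul_assoc]

theorem pk_congr {f g : ℕ → ℕ} {m : ℕ} (h : ∀ j, j < m → f j = g j) : pk f m = pk g m := by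
  simp only [pk]
  exact sum_congr rfl (fun j hj => by rw [h j (mem_range.mp hj)])

theorem testBit_lane (X i : ℕ) : X.testBit (20 * i + 19) = (ln X i).testBit 19 := by
  have h : ln X i = (X >>> (20 * i)) % 2 ^ 20 := by
    have h : ln X i = (X >>> (20 * i)) % 1048576 := rfl
    rw [h]; norm_num
  rw [h, Nat.testBit_mod_two_pow, Nat.testBit_shiftRight]
  simp

theorem testBit19 {y : ℕ} (hy : y < 2 ^ 20) : y.testBit 19 = decide (2 ^ 19 ≤ y) := by
  rw [Nat.testBit_eq_decide_div_mod_eq]
  congr 1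
  apply propext
  constructor
  · intro h
    by_contra hc
    rw [Nat.div_eq_of_lt (by omega)] at h
    omega
  · intro h
    have : y / 2 ^ 19 = 1 := by
      apply Nat.div_eq_of_lt_le <;> omega
    rw [this]

theorem ln_shr (X a i : ℕ) : ln (X >>> (20 * a)) i = ln X (a + i) := by
  rw [ln_eq, ln_eq, Nat.shiftRight_eq_div_pow, Nat.div_div_eq_div_mul, ← pow_add, ← mul_add]

/-- bit 19 of each lane tells whether the lane of `S` is `k` or `k + N` -/
def rmask (S O H N k : ℕ) : ℕ :=
  Nat.land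
    (Nat.xor (Nat.xor (Nat.add S (Nat.mul (Nat.sub 524288 k) O)) (Nat.add S (Nat.mul (Nat.sub 524287 k) O)))
      (Nat.xor (Nat.add S (Nat.mul (Nat.sub 524288 (Nat.add k N)) O))
        (Nat.add S (Nat.mul (Nat.sub 524287 (Nat.add k N)) O)))) H

theorem cmp_bit {s : ℕ → ℕ} {m N i q : ℕ} (hi : i < m) (hs : ∀ j, j < m → s j < 2 * N)
    (hN : N < 131072) (hq : q ≤ 524288) :
    (pk s m + q * pk (fun _ => 1) m).testBit (20 * i + 19) = decide (524288 ≤ s i + q) := by
  rw [pk_mul, pk_add, testBit_lane]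
  have hb : ∀ j, j < m → s j + q * 1 < 2 ^ 20 := by
    intro j hj
    have := hs j hj
    norm_num
    omega
  rw [ln_pk hb hi, testBit19 (hb i hi)]
  norm_num

theorem rmask_sound {s : ℕ → ℕ} {m N H i k : ℕ} (hi : i < m) (hs : ∀ j, j < m → s j < 2 * N)
    (hN : N < 131072) (hk : k < N) (hH : H.testBit (20 * i + 19) = true)
    (h : (rmask (pk s m) (pk (fun _ => 1) m) H N k).testBit (20 * i + 19) = false) :
    s i ≠ k ∧ s i ≠ k + N := by
  have e : rmask (pk s m) (pk (fun _ => 1) m) H N k =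
    (((pk s m + (524288 - k) * pk (fun _ => 1) m) ^^^ (pk s m + (524287 - k) * pk (fun _ => 1) m)) ^^^
      ((pk s m + (524288 - (k + N)) * pk (fun _ => 1) m) ^^^
        (pk s m + (524287 - (k + N)) * pk (fun _ => 1) m))) &&& H := rfl
  rw [e, Nat.testBit_and, hH, Bool.and_true, Nat.testBit_xor, Nat.testBit_xor, Nat.testBit_xor,
    cmp_bit hi hs hN (by omega), cmp_bit hi hs hN (by omega), cmp_bit hi hs hN (by omega),
    cmp_bit hi hs hN (by omega)] at h
  have hsi := hs i hi
  constructor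
  · intro hc
    have a1 : decide (524288 ≤ s i + (524288 - k)) = true := by rw [decide_eq_true_eq]; omega
    have a2 : decide (524288 ≤ s i + (524287 - k)) = false := by rw [decide_eq_false_iff_not]; omega
    have a3 : decide (524288 ≤ s i + (524288 - (k + N))) = false := by rw [decide_eq_false_iff_not]; omega
    have a4 : decide (524288 ≤ s i + (524287 - (k + N))) = false := by rw [decide_eq_false_iff_not]; omega
    rw [a1, a2, a3, a4] at h
    exact absurd h (by decide)
  · intro hc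
    have a1 : decide (524288 ≤ s i + (524288 - k)) = true := by rw [decide_eq_true_eq]; omega
    have a2 : decide (524288 ≤ s i + (524287 - k)) = true := by rw [decide_eq_true_eq]; omega
    have a3 : decide (524288 ≤ s i + (524288 - (k + N))) = true := by rw [decide_eq_true_eq]; omega
    have a4 : decide (524288 ≤ s i + (524287 - (k + N))) = false := by rw [decide_eq_false_iff_not]; omega
    rw [a1, a2, a3, a4] at h
    exact absurd h (by decide)

/-- run `f` over the lanes in which `Z` has a bit; `Z` has `2 ^ n` lanes, the first one being `lo` -/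
def scanZ (f : ℕ → Bool) : ℕ → ℕ → ℕ → Bool
  | 0, Z, lo => cond (Nat.beq Z 0) true (f lo)
  | n + 1, Z, lo => cond (Nat.beq Z 0) true
      (scanZ f n (Nat.land Z (Nat.sub (Nat.pow 2 (Nat.mul 20 (Nat.pow 2 n))) 1)) lo &&
        scanZ f n (Nat.shiftRight Z (Nat.mul 20 (Nat.pow 2 n))) (Nat.add lo (Nat.pow 2 n)))

theorem beq_zero_false {Z j : ℕ} (h : Z.testBit j = true) : Nat.beq Z 0 = false := by
  cases hbb : Nat.beq Z 0
  · rfl
  · have : Z = 0 := Nat.eq_of_beq_eq_true hbb
    rw [this] at h; simp at h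

theorem scanZ_sound {f : ℕ → Bool} {n Z lo : ℕ} (h : scanZ f n Z lo = true) :
    ∀ i, i < 2 ^ n → Z.testBit (20 * i + 19) = true → f (lo + i) = true := by
  induction n generalizing Z lo with
  | zero =>
    intro i hi hb
    have hi0 : i = 0 := by simpa using hi
    subst hi0
    rw [scanZ, beq_zero_false hb, cond_false] at h
    exact h
  | succ n ih =>
    intro i hi hb
    rw [scanZ, beq_zero_false hb, cond_false, Bool.and_eq_true] at h
    rcases Nat.lt_or_ge i (2 ^ n) with hlt | hge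
    · refine ih h.1 i hlt ?_
      have e : Nat.land Z (Nat.sub (Nat.pow 2 (Nat.mul 20 (Nat.pow 2 n))) 1) = Z &&& (2 ^ (20 * 2 ^ n) - 1) := rfl
      rw [e, Nat.testBit_and, hb, Nat.testBit_two_pow_sub_one, Bool.true_and, decide_eq_true_eq]
      omega
    · obtain ⟨k, rfl⟩ : ∃ k, i = 2 ^ n + k := ⟨i - 2 ^ n, by omega⟩
      have h2 := ih h.2 k (by rw [pow_succ] at hi; omega) (by
        have e : Nat.shiftRight Z (Nat.mul 20 (Nat.pow 2 n)) = Z >>> (20 * 2 ^ n) := rfl
        rw [e, Nat.testBit_shiftRight]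
        have : 20 * 2 ^ n + (20 * k + 19) = 20 * (2 ^ n + k) + 19 := by ring
        rw [this]; exact hb)
      have e : Nat.add lo (Nat.pow 2 n) + k = lo + (2 ^ n + k) := by
        show lo + 2 ^ n + k = _
        ring
      rwa [e] at h2

end Pool.Agent.V8H27.MK
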