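import Mathlib
import Pool.Agent.V8H27.MK.Pack

set_option autoImplicit false

/-!
# The packed test of a row, and the certificate from it
-/

namespace Pool.Agent.V8H27.MK

open Finset
open Pool.Agent.K7.H27.MK

/-- packed data -/
structure PDat where
  /-- the data of the certificate -/
  D : Dat
  /-- packed residues -/
  U : ℕ → ℕ → ℕ
  /-- packed residues in reverse order -/
  V : ℕ → ℕ → ℕ
  /-- ones -/
  O : ℕ
  /-- top bits -/
  H : ℕ

/-- the mask of `cnt` lanes -/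
def msk (cnt : ℕ) : ℕ := Nat.sub (Nat.pow 2 (Nat.mul 20 cnt)) 1

/-- `r0 + r2` -/
def PDat.s (E : PDat) (r1 c : ℕ) : ℕ := Nat.sub (Nat.add (Nat.mul 2 r1) (Nat.mul E.D.L c)) E.D.L

/-- first lane -/
def PDat.lo (E : PDat) (r1 c : ℕ) : ℕ := Nat.sub (Nat.add (E.s r1 c) 1) E.D.L

/-- number of lanes -/
def PDat.cnt (E : PDat) (r1 c : ℕ) : ℕ :=
  cond (Nat.blt (E.s r1 c) E.D.L) (Nat.add (E.s r1 c) 1) (Nat.sub (Nat.mul 2 E.D.L) (Nat.add (E.s r1 c) 1))

/-- packed sums of two residues -/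
def PDat.seg (E : PDat) (r1 c δ b0 b2 : ℕ) : ℕ :=
  Nat.add (Nat.land (Nat.shiftRight (E.U b0 0) (Nat.mul 20 (E.lo r1 c))) (msk (E.cnt r1 c)))
    (Nat.land (Nat.shiftRight (E.V b2 ((2 * δ + 4 - c) % 3)) (Nat.mul 20 (Nat.sub (Nat.sub E.D.L 1) (E.s r1 c))))
      (msk (E.cnt r1 c)))

/-- the residue to be avoided -/
def PDat.kk (E : PDat) (r1 c δ b1 : ℕ) : ℕ :=
  Nat.mod (Nat.sub E.D.N (Nat.mod (Nat.add (E.D.ng b1 δ r1) (E.D.cs δ c)) E.D.N)) E.D.N

/-- both values of `b1` -/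
def PDat.m2 (E : PDat) (r1 c δ b0 b2 : ℕ) : ℕ :=
  Nat.lor (rmask (E.seg r1 c δ b0 b2) (Nat.land E.O (msk (E.cnt r1 c))) E.H E.D.N (E.kk r1 c δ 0))
    (rmask (E.seg r1 c δ b0 b2) (Nat.land E.O (msk (E.cnt r1 c))) E.H E.D.N (E.kk r1 c δ 1))

/-- all bits -/
def PDat.m8 (E : PDat) (r1 c δ : ℕ) : ℕ :=
  Nat.lor (Nat.lor (E.m2 r1 c δ 0 0) (E.m2 r1 c δ 0 1)) (Nat.lor (E.m2 r1 c δ 1 0) (E.m2 r1 c δ 1 1))

/-- one value of `c` -/
def PDat.mc (E : PDat) (r1 c : ℕ) : ℕ :=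
  cond (Nat.ble E.D.L (Nat.add (Nat.mul 2 r1) (Nat.mul E.D.L c)) &&
      Nat.ble (Nat.add (Nat.add (Nat.mul 2 r1) (Nat.mul E.D.L c)) 2) (Nat.mul 3 E.D.L))
    (Nat.shiftLeft (Nat.lor (Nat.lor (E.m8 r1 c 0) (E.m8 r1 c 1)) (E.m8 r1 c 2)) (Nat.mul 20 (E.lo r1 c))) 0

/-- lanes with a coincidence in row `r1` -/
def PDat.mz (E : PDat) (r1 : ℕ) : ℕ := Nat.lor (Nat.lor (E.mc r1 0) (E.mc r1 1)) (E.mc r1 2)

/-- test of row `r1` -/
def PDat.row (E : PDat) (r1 : ℕ) : Bool := scanZ (fun r0 => E.D.okP r1 r0) 12 (E.mz r1) 0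

/-- the tables are consistent -/
structure PDat.Ok (E : PDat) : Prop where
  hD : E.D.Good
  ht : E.D.t = 1
  hN : E.D.N < 131072
  hL : E.D.L ≤ 2 ^ 12
  hU : ∀ b k r, E.D.rs b k r = ln (E.U b k) r
  hV : ∀ j, j < E.D.L → ∀ b, b < 2 → ∀ k, k < 3 → ln (E.V b k) j = ln (E.U b k) (E.D.L - 1 - j)
  hO : ∀ j, j < E.D.L → ln E.O j = 1
  hH : ∀ j, j < E.D.L → ln E.H j = 524288

theorem okT_of_okP {D : Dat} (hL : 0 < D.L) (ht1 : D.t = 1) {r0 r1 r2 c δ b0 b1 b2 : ℕ}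
    (h2 : r2 < D.L) (hc : c < 3) (hδ : δ < 3) (hb0 : b0 < 2) (hb1 : b1 < 2) (hb2 : b2 < 2)
    (hr : r0 + r2 + D.L = 2 * r1 + D.L * c) (hrw : D.okP r1 r0 = true) :
    D.okT r0 r1 r2 c δ b0 b1 b2 = true := by
  have hv : 2 * r1 + D.L - r0 = r2 + D.L * (2 - c) := by
    have : D.L * (2 - c) + D.L * c = D.L * 2 := by rw [← Nat.mul_add]; congr 1; omega
    omega
  have hr2 : (2 * r1 + D.L - r0) % D.L = r2 := by
    rw [hv, Nat.add_mul_mod_self_left, Nat.mod_eq_of_lt h2]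
  have hcc : 2 - (2 * r1 + D.L - r0) / D.L = c := by
    rw [hv, Nat.add_mul_div_left _ _ hL, Nat.div_eq_of_lt h2]; omega
  rw [Dat.okP, hr2, hcc, Bool.and_eq_true, Bool.and_eq_true] at hrw
  have hδ' : D.okδ r0 r1 r2 c δ = true := by
    interval_cases δ
    · exact hrw.1.1
    · exact hrw.1.2
    · exact hrw.2
  have hB : D.okB r0 r1 r2 c δ = true := by
    rw [Dat.okδ, ht1, Nat.mod_one, Nat.mod_one, Bool.or_eq_true] at hδ'
    rcases hδ' with h | h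
    · exact absurd h (by decide)
    · exact h
  simp only [Dat.okB, Bool.and_eq_true] at hB
  obtain ⟨⟨⟨⟨⟨⟨⟨a0, a1⟩, a2⟩, a3⟩, a4⟩, a5⟩, a6⟩, a7⟩ := hB
  interval_cases b0 <;> interval_cases b1 <;> interval_cases b2 <;> assumption

theorem land_msk (X cnt : ℕ) : Nat.land X (msk cnt) = pk (ln X) cnt := by
  have h : Nat.land X (msk cnt) = X &&& (2 ^ (20 * cnt) - 1) := rfl
  rw [h, Nat.and_two_pow_sub_one_eq_mod, mod_pk]

theorem shr_eq (X a : ℕ) : Nat.shiftRight X (Nat.mul 20 a) = X >>> (20 * a) := rfl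

theorem PDat.rs_lt {E : PDat} (hE : E.Ok) {b k r : ℕ} (hb : b < 2) (hk : k < 3) (hr : r < E.D.L) :
    E.D.rs b k r < E.D.N := by
  have h := hE.hD.hrs r hr b hb k hk
  have hN0 : (0 : ℤ) < E.D.N := by exact_mod_cast hE.hD.hN0
  have h2 := Int.emod_lt_of_pos ((rt k (E.D.fx b r) (E.D.fy b r)).1 + E.D.ka * (rt k (E.D.fx b r) (E.D.fy b r)).2) hN0
  rw [← h] at h2
  exact_mod_cast h2

theorem PDat.row_sound {E : PDat} (hE : E.Ok) {r1 : ℕ} (h1 : r1 < E.D.L) (h : E.row r1 = true)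
    {r0 r2 c δ b0 b1 b2 : ℕ} (h0 : r0 < E.D.L)
    (h2 : r2 < E.D.L) (hc : c < 3) (hδ : δ < 3) (hb0 : b0 < 2) (hb1 : b1 < 2) (hb2 : b2 < 2)
    (hr : r0 + r2 + E.D.L = 2 * r1 + E.D.L * c) :
    E.D.okT r0 r1 r2 c δ b0 b1 b2 = true := by
  have hL := hE.hD.hL
  have hN0 := hE.hD.hN0
  have hs : E.s r1 c = r0 + r2 := by
    show 2 * r1 + E.D.L * c - E.D.L = r0 + r2
    omega
  have hlo : E.lo r1 c = r0 + r2 + 1 - E.D.L := by
    show E.s r1 c + 1 - E.D.L = _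
    rw [hs]
  by_cases hz : (E.mz r1).testBit (20 * r0 + 19) = true
  · have h3 := scanZ_sound h r0 (by have := hE.hL; omega) hz
    rw [zero_add] at h3
    exact okT_of_okP hL hE.ht h2 hc hδ hb0 hb1 hb2 hr h3
  · rw [Bool.not_eq_true] at hz
    have hz' : (E.mc r1 c).testBit (20 * r0 + 19) = false := by
      have e : E.mz r1 = ((E.mc r1 0) ||| (E.mc r1 1)) ||| (E.mc r1 2) := rfl
      rw [e, Nat.testBit_or, Nat.testBit_or, Bool.or_eq_false_iff, Bool.or_eq_false_iff] at hz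
      interval_cases c
      · exact hz.1.1
      · exact hz.1.2
      · exact hz.2
    have hcond : (Nat.ble E.D.L (Nat.add (Nat.mul 2 r1) (Nat.mul E.D.L c)) &&
      Nat.ble (Nat.add (Nat.add (Nat.mul 2 r1) (Nat.mul E.D.L c)) 2) (Nat.mul 3 E.D.L)) = true := by
      rw [Bool.and_eq_true]
      constructor
      · apply Nat.ble_eq.mpr
        show E.D.L ≤ 2 * r1 + E.D.L * c
        omega
      · apply Nat.ble_eq.mpr
        show 2 * r1 + E.D.L * c + 2 ≤ 3 * E.D.L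
        omega
    have hlo0 : r0 + r2 + 1 - E.D.L ≤ r0 := by omega
    obtain ⟨i, hi⟩ : ∃ i, r0 = (r0 + r2 + 1 - E.D.L) + i := ⟨r0 - (r0 + r2 + 1 - E.D.L), by omega⟩
    have hz2 : ((E.m8 r1 c 0 ||| E.m8 r1 c 1) ||| E.m8 r1 c 2).testBit (20 * i + 19) = false := by
      have e : E.mc r1 c = ((E.m8 r1 c 0 ||| E.m8 r1 c 1) ||| E.m8 r1 c 2) <<< (20 * E.lo r1 c) := by
        rw [PDat.mc, hcond, cond_true]; rfl
      rw [e, Nat.testBit_shiftLeft, hlo] at hz'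
      have e1 : decide (20 * r0 + 19 ≥ 20 * (r0 + r2 + 1 - E.D.L)) = true := by
        rw [decide_eq_true_eq]; omega
      have e2 : 20 * r0 + 19 - 20 * (r0 + r2 + 1 - E.D.L) = 20 * i + 19 := by omega
      rw [e1, e2, Bool.true_and] at hz'
      exact hz'
    have hz3 : (E.m8 r1 c δ).testBit (20 * i + 19) = false := by
      rw [Nat.testBit_or, Nat.testBit_or, Bool.or_eq_false_iff, Bool.or_eq_false_iff] at hz2
      interval_cases δ
      · exact hz2.1.1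
      · exact hz2.1.2
      · exact hz2.2
    have hz4 : (E.m2 r1 c δ b0 b2).testBit (20 * i + 19) = false := by
      have e : E.m8 r1 c δ = ((E.m2 r1 c δ 0 0) ||| (E.m2 r1 c δ 0 1)) |||
        ((E.m2 r1 c δ 1 0) ||| (E.m2 r1 c δ 1 1)) := rfl
      rw [e, Nat.testBit_or, Nat.testBit_or, Nat.testBit_or, Bool.or_eq_false_iff, Bool.or_eq_false_iff,
        Bool.or_eq_false_iff] at hz3
      interval_cases b0 <;> interval_cases b2
      · exact hz3.1.1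
      · exact hz3.1.2
      · exact hz3.2.1
      · exact hz3.2.2
    have hz5 : (rmask (E.seg r1 c δ b0 b2) (Nat.land E.O (msk (E.cnt r1 c))) E.H E.D.N
        (E.kk r1 c δ b1)).testBit (20 * i + 19) = false := by
      have e : E.m2 r1 c δ b0 b2 = (rmask (E.seg r1 c δ b0 b2) (Nat.land E.O (msk (E.cnt r1 c))) E.H E.D.N
        (E.kk r1 c δ 0)) ||| (rmask (E.seg r1 c δ b0 b2) (Nat.land E.O (msk (E.cnt r1 c))) E.H E.D.N
        (E.kk r1 c δ 1)) := rfl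
      rw [e, Nat.testBit_or, Bool.or_eq_false_iff] at hz4
      interval_cases b1
      · exact hz4.1
      · exact hz4.2
    -- the number of lanes
    have hcnt : E.cnt r1 c = if r0 + r2 < E.D.L then r0 + r2 + 1 else 2 * E.D.L - (r0 + r2 + 1) := by
      rw [PDat.cnt, hs]
      by_cases hlt : r0 + r2 < E.D.L
      · have : Nat.blt (r0 + r2) E.D.L = true := Nat.ble_eq.mpr hlt
        rw [this, cond_true, if_pos hlt]
      · have : Nat.blt (r0 + r2) E.D.L = false := by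
          cases hb : Nat.blt (r0 + r2) E.D.L
          · rfl
          · exact absurd (Nat.ble_eq.mp hb) hlt
        rw [this, cond_false, if_neg hlt]; rfl
    have hicnt : i < E.cnt r1 c := by rw [hcnt]; split_ifs <;> omega
    have hcl : E.cnt r1 c ≤ E.D.L := by rw [hcnt]; split_ifs <;> omega
    have he3 : (2 * δ + 4 - c) % 3 < 3 := Nat.mod_lt _ (by norm_num)
    -- the packed numbers
    have hO : Nat.land E.O (msk (E.cnt r1 c)) = pk (fun _ => 1) (E.cnt r1 c) := by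
      rw [land_msk]
      exact pk_congr (fun j hj => hE.hO j (by omega))
    have hS : E.seg r1 c δ b0 b2 = pk (fun j => ln (E.U b0 0) (E.lo r1 c + j) +
        ln (E.V b2 ((2 * δ + 4 - c) % 3)) (E.D.L - 1 - E.s r1 c + j)) (E.cnt r1 c) := by
      rw [PDat.seg, land_msk, land_msk]
      show pk _ _ + pk _ _ = _
      rw [pk_add]
      refine pk_congr (fun j _ => ?_)
      rw [shr_eq, shr_eq, ln_shr, ln_shr]; rfl
    have hUl : ∀ j, j < E.cnt r1 c → ln (E.U b0 0) (E.lo r1 c + j) < E.D.N := by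
      intro j hj
      rw [← hE.hU]
      apply PDat.rs_lt hE hb0 (by norm_num)
      rw [hcnt] at hj
      rw [hlo]
      split_ifs at hj <;> omega
    have hVl : ∀ j, j < E.cnt r1 c → ln (E.V b2 ((2 * δ + 4 - c) % 3)) (E.D.L - 1 - E.s r1 c + j) < E.D.N := by
      intro j hj
      have hjL : E.D.L - 1 - E.s r1 c + j < E.D.L := by
        rw [hcnt] at hj
        rw [hs]
        split_ifs at hj <;> omega
      rw [hE.hV _ hjL b2 hb2 _ he3, ← hE.hU]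
      exact PDat.rs_lt hE hb2 he3 (by omega)
    have hkk : E.kk r1 c δ b1 < E.D.N := Nat.mod_lt _ hN0
    rw [hO, hS] at hz5
    have hH : E.H.testBit (20 * i + 19) = true := by
      rw [testBit_lane, hE.hH i (by omega)]; decide
    have hfin := rmask_sound hicnt (fun j hj => by have := hUl j hj; have := hVl j hj; omega) hE.hN hkk hH hz5
    have ha : ln (E.U b0 0) (E.lo r1 c + i) = E.D.rs b0 0 r0 := by
      rw [hE.hU, hlo, ← hi]
    have hb : ln (E.V b2 ((2 * δ + 4 - c) % 3)) (E.D.L - 1 - E.s r1 c + i) = E.D.rs b2 ((2 * δ + 4 - c) % 3) r2 := by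
      have hjL : E.D.L - 1 - E.s r1 c + i < E.D.L := by rw [hs]; omega
      rw [hE.hV _ hjL b2 hb2 _ he3, ← hE.hU]
      congr 1
      rw [hs]; omega
    simp only [ha, hb] at hfin
    have ha' : E.D.rs b0 0 r0 < E.D.N := PDat.rs_lt hE hb0 (by norm_num) h0
    have hb' : E.D.rs b2 ((2 * δ + 4 - c) % 3) r2 < E.D.N := PDat.rs_lt hE hb2 he3 h2
    rw [Dat.okT, Bool.or_eq_true]
    left
    apply Nat.ble_eq.mpr
    rw [Nat.one_le_iff_ne_zero]
    intro hc0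
    have hk : E.kk r1 c δ b1 = (E.D.N - (E.D.ng b1 δ r1 + E.D.cs δ c) % E.D.N) % E.D.N := rfl
    rw [hk] at hfin
    generalize E.D.rs b0 0 r0 = x at *
    generalize E.D.rs b2 ((2 * δ + 4 - c) % 3) r2 = y at *
    have e1 : (x + y + E.D.ng b1 δ r1 + E.D.cs δ c) % E.D.N =
        (x + y + (E.D.ng b1 δ r1 + E.D.cs δ c) % E.D.N) % E.D.N := by
      rw [add_assoc (x + y)]
      simp [Nat.add_mod]
    rw [e1] at hc0
    have hw : (E.D.ng b1 δ r1 + E.D.cs δ c) % E.D.N < E.D.N := Nat.mod_lt _ hN0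
    generalize (E.D.ng b1 δ r1 + E.D.cs δ c) % E.D.N = z at *
    obtain ⟨q, hq⟩ := Nat.dvd_of_mod_eq_zero hc0
    have hq3 : q < 3 := by
      by_contra hq3
      have : E.D.N * 3 ≤ E.D.N * q := Nat.mul_le_mul_left _ (by omega)
      omega
    rcases Nat.eq_zero_or_pos z with hz0 | hz0
    · subst hz0
      rw [Nat.sub_zero, Nat.mod_self] at hfin
      interval_cases q <;> omega
    · rw [Nat.mod_eq_of_lt (by omega)] at hfin
      interval_cases q <;> omega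

/-- the certificate from the packed rows -/
theorem PDat.cert {E : PDat} (hE : E.Ok) {φ : ℕ → ℕ → Z}
    (hφ : ∀ b, b < 2 → ∀ r, r ≤ E.D.L → φ b r = ⟨E.D.fx b r, E.D.fy b r⟩)
    (hrow : ∀ r1, r1 < E.D.L → E.row r1 = true) :
    Cert om (⟨E.D.ma, E.D.mb⟩ : Z) (⟨E.D.ca, E.D.cb⟩ : Z) φ E.D.L E.D.P E.D.t := by
  intro r0 r1 r2 c δ b0 b1 b2 h0 h1 h2 hc hδ hb0 hb1 hb2 hr _ d hd
  have hT := PDat.row_sound hE h1 (hrow r1 h1) h0 h2 hc hδ hb0 hb1 hb2 hr
  refine Dat.okT_sound hE.hD h0 h1 h2 hc hδ hb0 hb1 hb2 hT d ?_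
  rw [← hd]
  have he3 : (2 * δ + 4 - c) % 3 < 3 := Nat.mod_lt _ (by norm_num)
  rw [hφ b0 hb0 r0 h0.le, hφ b1 hb1 r1 h1.le, hφ b2 hb2 r2 h2.le, rt_eq he3, mul_assoc 2 (om ^ δ),
    rt_eq hδ, ee_eq he3, ee_eq hδ]
  ext
  · simp [Dat.X1, Dat.cv]; ring
  · simp [Dat.X2, Dat.cv]; ring

end Pool.Agent.V8H27.MK
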