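import Mathlib
import Pool.Agent.V8H27.MK.PackRow

set_option autoImplicit false

/-!
# Loops for the packed check
-/

namespace Pool.Agent.V8H27.MK

open Pool.Agent.K7.H27.MK

/-- bounded quantifier in pieces of 64 -/
def allC (f : ℕ → Bool) (n : ℕ) : Bool :=
  allB (fun i => allB (fun j => cond (Nat.blt (64 * i + j) n) (f (64 * i + j)) true) 64) (n / 64 + 1)

theorem allC_sound {f : ℕ → Bool} {n : ℕ} (h : allC f n = true) : ∀ r, r < n → f r = true := by
  intro r hr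
  have h1 := allB_sound h (r / 64) (by omega)
  have h2 := allB_sound h1 (r % 64) (Nat.mod_lt _ (by norm_num))
  have e : 64 * (r / 64) + r % 64 = r := Nat.div_add_mod r 64
  rw [e] at h2
  have : Nat.blt r n = true := Nat.ble_eq.mpr hr
  rw [this, cond_true] at h2
  exact h2

/-- rows `lo, ..., lo + n - 1` -/
def PDat.rows (E : PDat) (lo n : ℕ) : Bool := allB (fun i => E.row (lo + i)) n

theorem PDat.rows_sound {E : PDat} {lo n : ℕ} (h : E.rows lo n = true) (r1 : ℕ) (h1 : lo ≤ r1)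
    (h2 : r1 < lo + n) : E.row r1 = true := by
  have h3 := allB_sound h (r1 - lo) (by omega)
  have : lo + (r1 - lo) = r1 := by omega
  rwa [this] at h3

/-- residue of `-2 x` from that of `x` -/
def neg2 (N x : ℕ) : ℕ := Nat.mod (Nat.mul 2 (Nat.sub N x)) N

theorem neg2_eq {N x : ℕ} {X : ℤ} (hN : 0 < N) (h : (x : ℤ) = X % N) : ((neg2 N x : ℕ) : ℤ) = (-2 * X) % N := by
  have hN0 : (0 : ℤ) < N := by exact_mod_cast hN
  have hlt : x < N := by
    have := Int.emod_lt_of_pos X hN0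
    rw [← h] at this
    exact_mod_cast this
  have e : neg2 N x = (2 * (N - x)) % N := rfl
  rw [e]
  push_cast [Nat.cast_sub hlt.le]
  rw [h]
  have h1 : (2 * ((N : ℤ) - X % N)) ≡ -2 * X [ZMOD N] := by
    have h2 : X % (N : ℤ) ≡ X [ZMOD N] := Int.mod_modEq X N
    have h3 : (N : ℤ) ≡ 0 [ZMOD N] := by simp [Int.ModEq]
    have h4 := (h3.sub h2).mul_left 2
    have e2 : 2 * (0 - X) = -2 * X := by ring
    rwa [e2] at h4
  exact h1

/-- the check of one step of the paths -/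
def stepB (wd : ℕ → ℕ → ℕ) (fx fy : ℕ → ℕ → ℤ) (b r : ℕ) : Bool :=
  Nat.blt (wd b r) 3 && decide (fx b (r + 1) = fx b r + (rt (wd b r) 1 0).1) &&
    decide (fy b (r + 1) = fy b r + (rt (wd b r) 1 0).2)

/-- the check of one residue -/
def resB (D : Dat) (b k r : ℕ) : Bool :=
  decide (((D.rs b k r : ℕ) : ℤ) = ((rt k (D.fx b r) (D.fy b r)).1 + D.ka * (rt k (D.fx b r) (D.fy b r)).2) % D.N)

/-- the check of the packed tables at one lane -/
def laneB (E : PDat) (j : ℕ) : Bool :=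
  Nat.beq (ln E.O j) 1 && Nat.beq (ln E.H j) 524288 &&
  Nat.beq (ln (E.V 0 0) j) (ln (E.U 0 0) (E.D.L - 1 - j)) &&
  Nat.beq (ln (E.V 0 1) j) (ln (E.U 0 1) (E.D.L - 1 - j)) &&
  Nat.beq (ln (E.V 0 2) j) (ln (E.U 0 2) (E.D.L - 1 - j)) &&
  Nat.beq (ln (E.V 1 0) j) (ln (E.U 1 0) (E.D.L - 1 - j)) &&
  Nat.beq (ln (E.V 1 1) j) (ln (E.U 1 1) (E.D.L - 1 - j)) &&
  Nat.beq (ln (E.V 1 2) j) (ln (E.U 1 2) (E.D.L - 1 - j))

theorem lanes_sound {E : PDat} (h : allC (laneB E) E.D.L = true) :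
    (∀ j, j < E.D.L → ∀ b, b < 2 → ∀ k, k < 3 → ln (E.V b k) j = ln (E.U b k) (E.D.L - 1 - j)) ∧
    (∀ j, j < E.D.L → ln E.O j = 1) ∧ (∀ j, j < E.D.L → ln E.H j = 524288) := by
  have hh : ∀ j, j < E.D.L → laneB E j = true := allC_sound h
  refine ⟨fun j hj b hb k hk => ?_, fun j hj => ?_, fun j hj => ?_⟩
  · have := hh j hj
    simp only [laneB, Bool.and_eq_true] at this
    obtain ⟨⟨⟨⟨⟨⟨⟨_, _⟩, a00⟩, a01⟩, a02⟩, a10⟩, a11⟩, a12⟩ := this
    interval_cases b <;> interval_cases k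
    · exact Nat.eq_of_beq_eq_true a00
    · exact Nat.eq_of_beq_eq_true a01
    · exact Nat.eq_of_beq_eq_true a02
    · exact Nat.eq_of_beq_eq_true a10
    · exact Nat.eq_of_beq_eq_true a11
    · exact Nat.eq_of_beq_eq_true a12
  · have := hh j hj
    simp only [laneB, Bool.and_eq_true] at this
    exact Nat.eq_of_beq_eq_true this.1.1.1.1.1.1.1
  · have := hh j hj
    simp only [laneB, Bool.and_eq_true] at this
    exact Nat.eq_of_beq_eq_true this.1.1.1.1.1.1.2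

/-- all residues -/
def resA (D : Dat) (r : ℕ) : Bool :=
  resB D 0 0 r && resB D 0 1 r && resB D 0 2 r && resB D 1 0 r && resB D 1 1 r && resB D 1 2 r

theorem res_sound {D : Dat} (h : allC (resA D) D.L = true) : ∀ r, r < D.L → ∀ b, b < 2 → ∀ k, k < 3 →
    ((D.rs b k r : ℕ) : ℤ) = ((rt k (D.fx b r) (D.fy b r)).1 + D.ka * (rt k (D.fx b r) (D.fy b r)).2) % D.N := by
  intro r hr b hb k hk
  have := allC_sound h r hr
  simp only [resA, Bool.and_eq_true] at this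
  obtain ⟨⟨⟨⟨⟨a0, a1⟩, a2⟩, a3⟩, a4⟩, a5⟩ := this
  interval_cases b <;> interval_cases k
  · exact of_decide_eq_true a0
  · exact of_decide_eq_true a1
  · exact of_decide_eq_true a2
  · exact of_decide_eq_true a3
  · exact of_decide_eq_true a4
  · exact of_decide_eq_true a5

/-- both paths -/
def stepA (wd : ℕ → ℕ → ℕ) (fx fy : ℕ → ℕ → ℤ) (r : ℕ) : Bool := stepB wd fx fy 0 r && stepB wd fx fy 1 r

theorem step_sound {wd : ℕ → ℕ → ℕ} {fx fy : ℕ → ℕ → ℤ} {L : ℕ} (h : allC (stepA wd fx fy) L = true) :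
    ∀ r, r < L → ∀ b, b < 2 → wd b r < 3 ∧ fx b (r + 1) = fx b r + (rt (wd b r) 1 0).1 ∧
      fy b (r + 1) = fy b r + (rt (wd b r) 1 0).2 := by
  intro r hr b hb
  have := allC_sound h r hr
  simp only [stepA, stepB, Bool.and_eq_true, decide_eq_true_eq] at this
  obtain ⟨⟨⟨a0, a1⟩, a2⟩, ⟨a3, a4⟩, a5⟩ := this
  interval_cases b
  · exact ⟨Nat.ble_eq.mp a0, a1, a2⟩
  · exact ⟨Nat.ble_eq.mp a3, a4, a5⟩

end Pool.Agent.V8H27.MK
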